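import Pool.Agent.H89.MT.Targets

/-!
# Moments of the logarithmic averages of the correlations (module MOM)
-/

open MeasureTheory ProbabilityTheory Filter Topology Finset
open scoped ENNReal
open Pool.Agent.H89.MT

universe u

namespace Pool.Agent.H31.MT

private lemma wt_bd {Ω : Type*} [MeasurableSpace Ω] (P : Measure Ω) [IsProbabilityMeasure P]
    (u : Ω → ℕ → I1) (p : ℕ) : 0 ≤ wt P u p ∧ wt P u p ≤ 1 := by
  unfold wt
  have h : |∫ ω, (u ω p : ℝ) ∂P| ≤ 1 := by
    have := norm_integral_le_of_norm_le_const (μ := P) (f := fun ω => (u ω p : ℝ)) (C := 1)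
      (Filter.Eventually.of_forall fun ω => by
        rw [Real.norm_eq_abs, abs_le]; exact (u ω p).2)
    simpa using this
  constructor
  · linarith
  · have := abs_nonneg (∫ ω, (u ω p : ℝ) ∂P)
    linarith

private lemma prod_pair {m : ℕ} (i j : Fin m) (hij : i ≠ j) (x y z : ℝ) :
    ∏ k : Fin m, (if k = i then x else if k = j then y else z) = x * (y * z ^ (m - 2)) := by
  rw [← Finset.mul_prod_erase univ _ (mem_univ i),
    ← Finset.mul_prod_erase (univ.erase i) _ (mem_erase.2 ⟨hij.symm, mem_univ j⟩)]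
  have h1 : ∀ k ∈ (univ.erase i).erase j, (if k = i then x else if k = j then y else z) = z := by
    intro k hk
    rw [mem_erase, mem_erase] at hk
    rw [if_neg hk.2.1, if_neg hk.1]
  rw [Finset.prod_congr rfl h1, Finset.prod_const, if_pos rfl, if_neg hij.symm, if_pos rfl]
  have h2 : ((univ.erase i).erase j : Finset (Fin m)).card = m - 2 := by
    rw [card_erase_of_mem (mem_erase.2 ⟨hij.symm, mem_univ j⟩), card_erase_of_mem (mem_univ i)]
    simp
    omega
  rw [h2]

private lemma pair_sum {m : ℕ} (s : Finset ℕ) (g : ℕ → ℝ) (F : ℕ → ℕ → ℝ) (i j : Fin m)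
    (hij : i ≠ j) :
    ∑ n ∈ Fintype.piFinset (fun _ : Fin m => s), (∏ k, g (n k)) * F (n i) (n j) =
      (∑ a ∈ s, ∑ b ∈ s, g a * g b * F a b) * (∑ a ∈ s, g a) ^ (m - 2) := by
  have h1 : ∀ n ∈ Fintype.piFinset (fun _ : Fin m => s), (∏ k, g (n k)) * F (n i) (n j) =
      ∑ a ∈ s, ∑ b ∈ s, F a b * ∏ k, (g (n k) * ((if k = i then (if n k = a then 1 else 0) else 1)
        * (if k = j then (if n k = b then 1 else 0) else 1))) := by
    intro n hn
    have hi : n i ∈ s := Fintype.mem_piFinset.1 hn i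
    have hj : n j ∈ s := Fintype.mem_piFinset.1 hn j
    have h2 : ∀ a b : ℕ, ∏ k, (g (n k) * ((if k = i then (if n k = a then (1 : ℝ) else 0) else 1)
        * (if k = j then (if n k = b then 1 else 0) else 1))) =
        (∏ k, g (n k)) * ((if n i = a then 1 else 0) * (if n j = b then 1 else 0)) := by
      intro a b
      rw [Finset.prod_mul_distrib, Finset.prod_mul_distrib]
      simp only [Finset.prod_ite_eq', mem_univ, if_true]
    simp only [h2]
    rw [Finset.sum_eq_single (n i)]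
    · rw [Finset.sum_eq_single (n j)]
      · simp only [if_true]
        ring
      · intro b _ hb
        have h6 : (if n j = b then (1 : ℝ) else 0) = 0 := if_neg (fun h => hb h.symm)
        rw [h6]
        ring
      · intro h
        exact absurd hj h
    · intro a _ ha
      apply Finset.sum_eq_zero
      intro b _
      rw [if_neg (fun h => ha h.symm)]
      ring
    · intro h
      exact absurd hi h
  rw [Finset.sum_congr rfl h1, Finset.sum_comm]
  have h3 : ∀ a ∈ s, ∑ n ∈ Fintype.piFinset (fun _ : Fin m => s), ∑ b ∈ s, F a b *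
      ∏ k, (g (n k) * ((if k = i then (if n k = a then 1 else 0) else 1)
        * (if k = j then (if n k = b then 1 else 0) else 1))) =
      ∑ b ∈ s, g a * g b * F a b * (∑ a ∈ s, g a) ^ (m - 2) := by
    intro a ha
    rw [Finset.sum_comm]
    refine Finset.sum_congr rfl fun b hb => ?_
    rw [← Finset.mul_sum]
    have h4 := Finset.prod_univ_sum (fun _ : Fin m => s) (fun k c =>
      (g c * ((if k = i then (if c = a then (1 : ℝ) else 0) else 1)
        * (if k = j then (if c = b then 1 else 0) else 1))))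
    rw [← h4]
    have h5 : ∀ k : Fin m, ∑ c ∈ s, (g c * ((if k = i then (if c = a then (1 : ℝ) else 0) else 1)
        * (if k = j then (if c = b then 1 else 0) else 1))) =
        if k = i then g a else if k = j then g b else ∑ a ∈ s, g a := by
      intro k
      by_cases hki : k = i
      · have hkj : ¬ k = j := fun h => hij (hki.symm.trans h)
        simp [hki, hij, ha]
      · by_cases hkj : k = j
        · subst hkj
          simp [hki, hb]
        · simp [hki, hkj]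
    rw [Finset.prod_congr rfl fun k _ => h5 k, prod_pair i j hij]
    ring
  rw [Finset.sum_congr rfl h3, Finset.sum_mul]
  refine Finset.sum_congr rfl fun a _ => ?_
  rw [Finset.sum_mul]

private lemma exp_sum_le {α : Type*} (Q : Finset α) (hQ : Q.Nonempty) (x : α → ℝ) :
    Real.exp (∑ q ∈ Q, x q) ≤ ∑ q ∈ Q, Real.exp (Q.card * x q) := by
  obtain ⟨q0, hq0, hmax⟩ := Finset.exists_max_image Q x hQ
  have h1 : ∑ q ∈ Q, x q ≤ Q.card * x q0 := by
    have := Finset.sum_le_card_nsmul Q x (x q0) hmax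
    simpa [nsmul_eq_mul] using this
  refine (Real.exp_le_exp.2 h1).trans ?_
  exact Finset.single_le_sum (f := fun q => Real.exp (Q.card * x q))
    (fun q _ => (Real.exp_pos _).le) hq0

private lemma harm (N : ℕ) : ∑ n ∈ Icc 1 N, (1 : ℝ) / n ≤ 1 + Real.log N := by
  have h := harmonic_le_one_add_log N
  rw [harmonic_eq_sum_Icc] at h
  push_cast at h
  simpa [one_div] using h

private lemma log3 (N : ℕ) (hN : 3 ≤ N) : 1 ≤ Real.log N := by
  have h : Real.exp 1 ≤ (N : ℝ) := by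
    have h1 := Real.exp_one_lt_d9
    have h2 : (3 : ℝ) ≤ N := by exact_mod_cast hN
    linarith
  rw [Real.le_log_iff_exp_le (by positivity)]
  exact h

/-- expansion of the power of a logarithmic average -/
private lemma lavg_pow (N m : ℕ) (H : Finset ℕ) (u : ℕ → I1) :
    lavg N (corr u H) ^ m = (∑ n ∈ Fintype.piFinset (fun _ : Fin m => Icc 1 N),
      (∏ k, (1 : ℝ) / (n k)) * ∏ q : Fin m × H, (u (n q.1 + (q.2 : ℕ)) : ℝ)) / Real.log N ^ m := by
  unfold lavg
  rw [div_pow]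
  congr 1
  have h4 := Finset.prod_univ_sum (fun _ : Fin m => Icc 1 N) (fun _ c => corr u H c / (c : ℝ))
  rw [Finset.prod_const, card_univ, Fintype.card_fin] at h4
  rw [h4]
  refine Finset.sum_congr rfl fun n _ => ?_
  rw [Fintype.prod_prod_type, ← Finset.prod_mul_distrib]
  refine Finset.prod_congr rfl fun k _ => ?_
  have h5 : ∏ y : H, (u (n k + (y : ℕ)) : ℝ) = ∏ h ∈ H, (u (n k + h) : ℝ) :=
    Finset.prod_coe_sort H (fun h => (u (n k + h) : ℝ))
  rw [h5]
  unfold corr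
  ring

theorem pf_MOM (hEXP : T_EXP.{u}) (hCMB : T_CMB) (hGCD : T_GCD) (hOM : T_OM) : T_MOM.{u} := by
  intro Ω _ P _ u hu H hH r hr
  obtain ⟨h0, hh0⟩ := hH
  set m : ℕ := 2 * r with hm
  have hm2 : 2 ≤ m := by omega
  -- the index set of the pairs
  set Q : Finset (Fin m × Fin m × ℕ) :=
    (univ ×ˢ (univ ×ˢ H)).filter (fun q => q.1 ≠ q.2.1) with hQdef
  have hQne : Q.Nonempty := by
    refine ⟨(⟨0, by omega⟩, ⟨1, by omega⟩, h0), ?_⟩
    rw [hQdef, mem_filter]
    refine ⟨by simp [hh0], ?_⟩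
    simp
  set K : ℝ := Real.exp (2 * (Q.card : ℝ)) with hK
  have hK1 : 1 ≤ K := Real.one_le_exp (by positivity)
  obtain ⟨C1, hC1, hOM1⟩ := hOM h0
  have hGG : ∀ h : ℕ, ∃ C : ℝ, ∀ N : ℕ, 3 ≤ N →
      ∑ n ∈ Icc 1 N, ∑ k ∈ Icc 1 N, K ^ nu (n + h0) (k + h) / ((n : ℝ) * k) ≤
        C * Real.log N ^ 2 := fun h => hGCD K h0 h hK1
  choose CG hCG using hGG
  set w : ℕ → ℝ := wt P u with hw
  have hw0 : ∀ p, 0 ≤ w p := fun p => (wt_bd P u p).1
  have hw1 : ∀ p, w p ≤ 1 := fun p => (wt_bd P u p).2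
  set CH : ℝ := (m : ℝ) * (∑ h ∈ H, (h + h0) : ℕ) with hCH
  set C2 : ℝ := ∑ q ∈ Q, 2 ^ (m - 2) * CG q.2.2 with hC2
  refine ⟨Real.exp CH * ((C1 ^ m + C2) / 2), fun N hN => ?_⟩
  have hL : 1 ≤ Real.log N := log3 N hN
  have hL0 : 0 < Real.log N := by linarith
  set L : ℝ := Real.log N with hLdef
  set piF : Finset (Fin m → ℕ) := Fintype.piFinset (fun _ : Fin m => Icc 1 N) with hpiF
  -- expand and integrate
  have hexp1 : ∫ ω, lavg N (corr (u ω) H) ^ m ∂P =
      (∑ n ∈ piF, (∏ k, (1 : ℝ) / (n k)) *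
        ∫ ω, ∏ q : Fin m × H, (u ω (n q.1 + (q.2 : ℕ)) : ℝ) ∂P) / L ^ m := by
    simp_rw [lavg_pow N m H]
    rw [integral_div]
    congr 1
    rw [integral_finsetSum]
    · refine Finset.sum_congr rfl fun n _ => ?_
      rw [integral_const_mul]
    · intro n _
      refine Integrable.const_mul ?_ _
      refine Integrable.of_bound (C := 1) ?_ (Filter.Eventually.of_forall fun ω => ?_)
      · refine Measurable.aestronglyMeasurable ?_
        refine Finset.measurable_prod _ fun q _ => ?_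
        exact (hu.meas _).subtype_val
      · rw [Real.norm_eq_abs, Finset.abs_prod]
        refine Finset.prod_le_one (fun _ _ => abs_nonneg _) (fun q _ => ?_)
        rw [abs_le]
        exact (u ω _).2
  -- termwise bound
  have hterm : ∀ n ∈ piF, ∫ ω, ∏ q : Fin m × H, (u ω (n q.1 + (q.2 : ℕ)) : ℝ) ∂P ≤
      Real.exp CH * (Real.exp (-∑ i, om w (n i + h0)) *
        Real.exp (∑ q ∈ Q, (nu (n q.1 + h0) (n q.2.1 + q.2.2) : ℝ))) := by
    intro n hn
    have hpos : ∀ i, 0 < n i := by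
      intro i
      have := Fintype.mem_piFinset.1 hn i
      rw [mem_Icc] at this
      omega
    have h1 := hEXP Ω P u hu (Fin m × H) (fun q => n q.1 + (q.2 : ℕ))
      (fun q => by have := hpos q.1; omega)
    have h2 := hCMB w hw0 hw1 H h0 hh0 m n hpos
    have h3 : ∑ i, ∑ j ∈ univ.erase i, ∑ h ∈ H, (nu (n i + h0) (n j + h) : ℝ) =
        ∑ q ∈ Q, (nu (n q.1 + h0) (n q.2.1 + q.2.2) : ℝ) := by
      rw [hQdef, Finset.sum_filter, Finset.sum_product]
      refine Finset.sum_congr rfl fun i _ => ?_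
      rw [Finset.sum_product]
      rw [← Finset.sum_filter_add_sum_filter_not univ (fun j => j ≠ i)]
      have h4 : ∑ j ∈ univ.filter (fun j => ¬ j ≠ i), ∑ y ∈ H,
          (if i ≠ j then (nu (n i + h0) (n j + y) : ℝ) else 0) = 0 := by
        refine Finset.sum_eq_zero fun j hj => Finset.sum_eq_zero fun y _ => ?_
        rw [mem_filter, not_not] at hj
        rw [if_neg (by rw [hj.2]; simp)]
      rw [h4, add_zero]
      have h5 : (univ.filter (fun j => j ≠ i) : Finset (Fin m)) = univ.erase i := by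
        ext j
        simp
      rw [h5]
      refine Finset.sum_congr rfl fun j hj => Finset.sum_congr rfl fun y _ => ?_
      rw [if_pos (fun h => (mem_erase.1 hj).1 h.symm)]
    rw [h3] at h2
    refine (le_abs_self _).trans (h1.trans ?_)
    rw [← Real.exp_add, ← Real.exp_add]
    apply Real.exp_le_exp.2
    have h6 : (m : ℝ) * ((∑ h ∈ H, (h + h0) : ℕ) : ℝ) = CH := rfl
    linarith
  -- weighted arithmetic-geometric mean
  set T : ℝ := Real.exp ((r : ℝ) / 2 * SS w N) with hT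
  have hTpos : 0 < T := Real.exp_pos _
  have hamgm : ∀ x y : ℝ, x * y ≤ (T * x ^ 2 + T⁻¹ * y ^ 2) / 2 := by
    intro x y
    have h1 : T * x ^ 2 + T⁻¹ * y ^ 2 - 2 * (x * y) = T * (x - T⁻¹ * y) ^ 2 := by
      field_simp
      ring
    have h2 : 0 ≤ T * (x - T⁻¹ * y) ^ 2 := by positivity
    linarith
  have hc0 : ∀ n : Fin m → ℕ, 0 ≤ ∏ k, (1 : ℝ) / (n k) := fun n =>
    Finset.prod_nonneg fun k _ => by positivity
  -- first sum
  have hS1 : ∑ n ∈ piF, (∏ k, (1 : ℝ) / (n k)) * Real.exp (-∑ i, om w (n i + h0)) ^ 2 ≤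
      C1 ^ m * L ^ m * Real.exp (-((r : ℝ) * SS w N)) := by
    have h1 : ∀ n ∈ piF, (∏ k, (1 : ℝ) / (n k)) * Real.exp (-∑ i, om w (n i + h0)) ^ 2 =
        ∏ k, Real.exp (-(2 * om w (n k + h0))) / (n k) := by
      intro n _
      have h2 : Real.exp (-∑ i, om w (n i + h0)) ^ 2 = ∏ k, Real.exp (-(2 * om w (n k + h0))) := by
        rw [← Real.exp_nat_mul, ← Real.exp_sum]
        congr 1
        rw [Finset.sum_neg_distrib, ← Finset.mul_sum]
        push_cast
        ring
      rw [h2, ← Finset.prod_mul_distrib]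
      refine Finset.prod_congr rfl fun k _ => ?_
      ring
    rw [Finset.sum_congr rfl h1]
    have h4 := Finset.prod_univ_sum (fun _ : Fin m => Icc 1 N)
      (fun _ c => Real.exp (-(2 * om w (c + h0))) / (c : ℝ))
    rw [Finset.prod_const, card_univ, Fintype.card_fin] at h4
    rw [hpiF, ← h4]
    have h5 := hOM1 w hw0 hw1 N hN
    have h6 : 0 ≤ ∑ n ∈ Icc 1 N, Real.exp (-(2 * om w (n + h0))) / (n : ℝ) :=
      Finset.sum_nonneg fun n _ => by positivity
    refine (pow_le_pow_left₀ h6 h5 m).trans (le_of_eq ?_)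
    rw [mul_pow, mul_pow, ← Real.exp_nat_mul]
    congr 2
    rw [hm]
    push_cast
    ring
  -- second sum
  have hS2 : ∑ n ∈ piF, (∏ k, (1 : ℝ) / (n k)) *
      Real.exp (∑ q ∈ Q, (nu (n q.1 + h0) (n q.2.1 + q.2.2) : ℝ)) ^ 2 ≤ C2 * L ^ m := by
    have h1 : ∀ n ∈ piF, (∏ k, (1 : ℝ) / (n k)) *
        Real.exp (∑ q ∈ Q, (nu (n q.1 + h0) (n q.2.1 + q.2.2) : ℝ)) ^ 2 ≤
        ∑ q ∈ Q, (∏ k, (1 : ℝ) / (n k)) * K ^ nu (n q.1 + h0) (n q.2.1 + q.2.2) := by
      intro n _
      rw [← Finset.mul_sum]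
      refine mul_le_mul_of_nonneg_left ?_ (hc0 n)
      rw [← Real.exp_nat_mul, Finset.mul_sum]
      refine (exp_sum_le Q hQne _).trans (Finset.sum_le_sum fun q _ => le_of_eq ?_)
      rw [hK, ← Real.exp_nat_mul]
      congr 1
      push_cast
      ring
    refine (Finset.sum_le_sum h1).trans ?_
    rw [Finset.sum_comm, hC2, Finset.sum_mul]
    refine Finset.sum_le_sum fun q hq => ?_
    have hq1 : q.1 ≠ q.2.1 := (mem_filter.1 hq).2
    have h2 := pair_sum (Icc 1 N) (fun c => (1 : ℝ) / c)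
      (fun a b => K ^ nu (a + h0) (b + q.2.2)) q.1 q.2.1 hq1
    rw [hpiF, h2]
    have h3 := hCG q.2.2 N hN
    have h4 : ∑ a ∈ Icc 1 N, ∑ b ∈ Icc 1 N, (1 : ℝ) / a * (1 / b) *
        K ^ nu (a + h0) (b + q.2.2) =
        ∑ n ∈ Icc 1 N, ∑ k ∈ Icc 1 N, K ^ nu (n + h0) (k + q.2.2) / ((n : ℝ) * k) := by
      refine Finset.sum_congr rfl fun a _ => Finset.sum_congr rfl fun b _ => ?_
      rw [div_mul_div_comm, one_mul, div_mul_eq_mul_div, one_mul]
    rw [h4]
    have h5 : 0 ≤ ∑ n ∈ Icc 1 N, ∑ k ∈ Icc 1 N,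
        K ^ nu (n + h0) (k + q.2.2) / ((n : ℝ) * k) :=
      Finset.sum_nonneg fun n _ => Finset.sum_nonneg fun k _ => by positivity
    have h6 : ∑ a ∈ Icc 1 N, (1 : ℝ) / a ≤ 2 * L := by
      have := harm N
      linarith
    have h7 : 0 ≤ ∑ a ∈ Icc 1 N, (1 : ℝ) / a := Finset.sum_nonneg fun n _ => by positivity
    have h8 : (∑ a ∈ Icc 1 N, (1 : ℝ) / a) ^ (m - 2) ≤ (2 * L) ^ (m - 2) :=
      pow_le_pow_left₀ h7 h6 _
    calc _ ≤ (CG q.2.2 * L ^ 2) * (2 * L) ^ (m - 2) :=
          mul_le_mul h3 h8 (pow_nonneg h7 _) (h5.trans h3)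
      _ = 2 ^ (m - 2) * CG q.2.2 * L ^ m := by
          have h9 : L ^ m = L ^ 2 * L ^ (m - 2) := by
            rw [← pow_add]
            congr 1
            omega
          rw [h9, mul_pow]
          ring
  -- assembly
  have hTT : T * Real.exp (-((r : ℝ) * SS w N)) = T⁻¹ := by
    rw [hT, ← Real.exp_add, ← Real.exp_neg]
    congr 1
    ring
  have hfin : ∑ n ∈ piF, (∏ k, (1 : ℝ) / (n k)) *
        ∫ ω, ∏ q : Fin m × H, (u ω (n q.1 + (q.2 : ℕ)) : ℝ) ∂P ≤
      Real.exp CH * ((C1 ^ m + C2) / 2) * T⁻¹ * L ^ m := by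
    have h1 : ∀ n ∈ piF, (∏ k, (1 : ℝ) / (n k)) *
        ∫ ω, ∏ q : Fin m × H, (u ω (n q.1 + (q.2 : ℕ)) : ℝ) ∂P ≤
        Real.exp CH / 2 * (T * ((∏ k, (1 : ℝ) / (n k)) *
            Real.exp (-∑ i, om w (n i + h0)) ^ 2) +
          T⁻¹ * ((∏ k, (1 : ℝ) / (n k)) *
            Real.exp (∑ q ∈ Q, (nu (n q.1 + h0) (n q.2.1 + q.2.2) : ℝ)) ^ 2)) := by
      intro n hn
      have h2 := mul_le_mul_of_nonneg_left (hterm n hn) (hc0 n)
      refine h2.trans ?_
      have h3 := hamgm (Real.exp (-∑ i, om w (n i + h0)))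
        (Real.exp (∑ q ∈ Q, (nu (n q.1 + h0) (n q.2.1 + q.2.2) : ℝ)))
      have h4 : 0 ≤ Real.exp CH * ∏ k, (1 : ℝ) / (n k) :=
        mul_nonneg (Real.exp_pos _).le (hc0 n)
      have h5 := mul_le_mul_of_nonneg_left h3 h4
      calc _ = Real.exp CH * (∏ k, (1 : ℝ) / (n k)) * (Real.exp (-∑ i, om w (n i + h0)) *
            Real.exp (∑ q ∈ Q, (nu (n q.1 + h0) (n q.2.1 + q.2.2) : ℝ))) := by ring
        _ ≤ _ := h5
        _ = _ := by ring
    refine (Finset.sum_le_sum h1).trans ?_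
    rw [← Finset.mul_sum, Finset.sum_add_distrib, ← Finset.mul_sum, ← Finset.mul_sum]
    have h6 := mul_le_mul_of_nonneg_left hS1 hTpos.le
    have h7 := mul_le_mul_of_nonneg_left hS2 (inv_pos.2 hTpos).le
    have h8 : 0 ≤ Real.exp CH / 2 := by positivity
    refine (mul_le_mul_of_nonneg_left (add_le_add h6 h7) h8).trans (le_of_eq ?_)
    have h9 : T * (C1 ^ m * L ^ m * Real.exp (-((r : ℝ) * SS w N))) = C1 ^ m * L ^ m * T⁻¹ := by
      rw [← hTT]
      ring
    rw [h9]
    ring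
  rw [hexp1, div_le_iff₀ (by positivity)]
  refine hfin.trans (le_of_eq ?_)
  rw [hT, ← Real.exp_neg]

end Pool.Agent.H31.MT
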